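import Pool.Agent.LE.StmtsM
import Pool.Agent.Helper11_Mob.Gzb
import Pool.Agent.Helper31_Mob.Weg
import Pool.Agent.Helper48_Loc.CT

/-! PSZ: the Green function at a complex energy above the spectrum. -/

set_option autoImplicit false
set_option linter.unusedSectionVars false

open scoped Topology ENNReal NNReal
open MeasureTheory Filter ProbabilityTheory

noncomputable section

namespace Pool.Agent.LE.MN.H60

open Matrix
open Pool.Agent.Anderson hiding box mem_box card_box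
open Pool.Agent.Loc Pool.Agent.Mob Pool.Agent.Helper54.Bal
  Pool.Agent.Helper96.EXP Pool.Agent.BED

section generic

variable {ι : Type*} [Fintype ι] [DecidableEq ι]

theorem dot_symm {K : Matrix ι ι ℝ} (hs : Kᵀ = K) (u v : ι → ℝ) :
    u ⬝ᵥ K *ᵥ v = (K *ᵥ u) ⬝ᵥ v := by
  rw [Matrix.dotProduct_mulVec, ← Matrix.mulVec_transpose, hs]

theorem dot_nonneg (u : ι → ℝ) : 0 ≤ u ⬝ᵥ u :=
  Finset.sum_nonneg fun i _ => mul_self_nonneg (u i)

theorem norm_step {K : Matrix ι ι ℝ} (hs : Kᵀ = K) {lam : ℝ} (hlam : 0 < lam)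
    (h0 : ∀ u : ι → ℝ, 0 ≤ u ⬝ᵥ K *ᵥ u) (h1 : ∀ u : ι → ℝ, u ⬝ᵥ K *ᵥ u ≤ lam * (u ⬝ᵥ u))
    (u : ι → ℝ) : (K *ᵥ u) ⬝ᵥ (K *ᵥ u) ≤ lam ^ 2 * (u ⬝ᵥ u) := by
  set v := K *ᵥ u with hv
  have h2 := h0 (u - lam⁻¹ • v)
  have h3 : (u - lam⁻¹ • v) ⬝ᵥ K *ᵥ (u - lam⁻¹ • v) =
      u ⬝ᵥ K *ᵥ u - 2 * lam⁻¹ * (v ⬝ᵥ v) + lam⁻¹ ^ 2 * (v ⬝ᵥ K *ᵥ v) := by
    have e : u ⬝ᵥ K *ᵥ v = v ⬝ᵥ v := by rw [dot_symm hs]
    rw [Matrix.mulVec_sub, Matrix.mulVec_smul, sub_dotProduct, dotProduct_sub, dotProduct_sub,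
      smul_dotProduct, smul_dotProduct, dotProduct_smul, dotProduct_smul, e, ← hv]
    simp only [smul_eq_mul]
    ring
  rw [h3] at h2
  have h4 := h1 v
  have h5 := h1 u
  have h6 : lam⁻¹ ^ 2 * (v ⬝ᵥ K *ᵥ v) ≤ lam⁻¹ * (v ⬝ᵥ v) := by
    calc lam⁻¹ ^ 2 * (v ⬝ᵥ K *ᵥ v) ≤ lam⁻¹ ^ 2 * (lam * (v ⬝ᵥ v)) :=
          mul_le_mul_of_nonneg_left h4 (by positivity)
      _ = lam⁻¹ * (v ⬝ᵥ v) := by field_simp
  have h7 : lam⁻¹ * (v ⬝ᵥ v) ≤ lam * (u ⬝ᵥ u) := by linarith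
  calc v ⬝ᵥ v = lam * (lam⁻¹ * (v ⬝ᵥ v)) := by field_simp
    _ ≤ lam * (lam * (u ⬝ᵥ u)) := mul_le_mul_of_nonneg_left h7 hlam.le
    _ = _ := by ring

theorem norm_powK {K : Matrix ι ι ℝ} (hs : Kᵀ = K) {lam : ℝ} (hlam : 0 < lam)
    (h0 : ∀ u : ι → ℝ, 0 ≤ u ⬝ᵥ K *ᵥ u) (h1 : ∀ u : ι → ℝ, u ⬝ᵥ K *ᵥ u ≤ lam * (u ⬝ᵥ u))
    (u : ι → ℝ) (m : ℕ) : (K ^ m *ᵥ u) ⬝ᵥ (K ^ m *ᵥ u) ≤ (lam ^ m) ^ 2 * (u ⬝ᵥ u) := by
  induction m with
  | zero => rw [pow_zero, pow_zero, Matrix.one_mulVec, one_pow, one_mul]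
  | succ m ih =>
    rw [pow_succ', ← Matrix.mulVec_mulVec]
    refine (norm_step hs hlam h0 h1 _).trans ?_
    calc lam ^ 2 * ((K ^ m *ᵥ u) ⬝ᵥ (K ^ m *ᵥ u)) ≤ lam ^ 2 * ((lam ^ m) ^ 2 * (u ⬝ᵥ u)) :=
          mul_le_mul_of_nonneg_left ih (by positivity)
      _ = _ := by ring

theorem row_le {K : Matrix ι ι ℝ} (hs : Kᵀ = K) {lam : ℝ} (hlam : 0 < lam)
    (h0 : ∀ u : ι → ℝ, 0 ≤ u ⬝ᵥ K *ᵥ u) (h1 : ∀ u : ι → ℝ, u ⬝ᵥ K *ᵥ u ≤ lam * (u ⬝ᵥ u))
    (x : ι) (m : ℕ) : ∑ z, (K ^ m) x z ^ 2 ≤ (lam ^ m) ^ 2 := by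
  have h2 := norm_powK hs hlam h0 h1 (Pi.single x 1) m
  have h3 : (K ^ m)ᵀ = K ^ m := by rw [Matrix.transpose_pow, hs]
  have h4 : ∀ z, (K ^ m *ᵥ Pi.single x 1) z = (K ^ m) x z := by
    intro z
    rw [Matrix.mulVec_single_one]
    exact congrFun (congrFun h3 x) z
  have h5 : (Pi.single x (1 : ℝ) : ι → ℝ) ⬝ᵥ Pi.single x 1 = 1 := by
    rw [single_one_dotProduct, Pi.single_eq_same]
  rw [h5, mul_one] at h2
  refine le_trans (le_of_eq ?_) h2
  unfold dotProduct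
  exact Finset.sum_congr rfl fun z _ => by rw [h4]; ring

/-- complex version of a real matrix -/
def cx (H : Matrix ι ι ℝ) : Matrix ι ι ℂ := H.map (fun a => (a : ℂ))

theorem coer {H : Matrix ι ι ℝ} {E δ : ℝ}
    (hq : ∀ u : ι → ℝ, δ * (u ⬝ᵥ u) ≤ E * (u ⬝ᵥ u) - u ⬝ᵥ H *ᵥ u) {w : ℂ} (hw : w.re = E)
    (u : ι → ℂ) : δ * ∑ z, ‖u z‖ ^ 2 ≤
      ∑ z, (starRingEnd ℂ (u z) * ((w • (1 : Matrix ι ι ℂ) - cx H) *ᵥ u) z).re := by
  set a : ι → ℝ := fun z => (u z).re with ha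
  set b : ι → ℝ := fun z => (u z).im with hb
  have hn : ∀ z, ‖u z‖ ^ 2 = a z * a z + b z * b z := by
    intro z
    rw [← Complex.normSq_eq_norm_sq, Complex.normSq_apply]
  have h1 : ∑ z, ‖u z‖ ^ 2 = a ⬝ᵥ a + b ⬝ᵥ b := by
    unfold dotProduct
    rw [← Finset.sum_add_distrib]
    exact Finset.sum_congr rfl fun z _ => hn z
  have h2 : ∀ z, (starRingEnd ℂ (u z) * ((w • (1 : Matrix ι ι ℂ) - cx H) *ᵥ u) z).re =
      E * (a z * a z + b z * b z) - (a z * (H *ᵥ a) z + b z * (H *ᵥ b) z) := by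
    intro z
    have e1 : ((w • (1 : Matrix ι ι ℂ) - cx H) *ᵥ u) z = w * u z - ∑ t, (H z t : ℂ) * u t := by
      rw [Matrix.sub_mulVec, Matrix.smul_mulVec, Matrix.one_mulVec, Pi.sub_apply, Pi.smul_apply,
        smul_eq_mul]
      rfl
    have e2 : (∑ t, (H z t : ℂ) * u t).re = (H *ᵥ a) z := by
      rw [Complex.re_sum]
      unfold Matrix.mulVec dotProduct
      exact Finset.sum_congr rfl fun t _ => by rw [Complex.re_ofReal_mul]
    have e3 : (∑ t, (H z t : ℂ) * u t).im = (H *ᵥ b) z := by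
      rw [Complex.im_sum]
      unfold Matrix.mulVec dotProduct
      exact Finset.sum_congr rfl fun t _ => by rw [Complex.im_ofReal_mul]
    rw [e1, mul_sub, Complex.sub_re]
    congr 1
    · have e4 : starRingEnd ℂ (u z) * (w * u z) = w * ((Complex.normSq (u z) : ℝ) : ℂ) := by
        rw [Complex.normSq_eq_conj_mul_self]
        ring
      rw [e4, Complex.re_mul_ofReal, hw, Complex.normSq_apply]
    · rw [Complex.mul_re, e2, e3, Complex.conj_re, Complex.conj_im]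
      ring
  rw [Finset.sum_congr rfl fun z _ => h2 z, h1]
  have h3 := hq a
  have h4 := hq b
  have h5 : ∑ z, (E * (a z * a z + b z * b z) - (a z * (H *ᵥ a) z + b z * (H *ᵥ b) z)) =
      (E * (a ⬝ᵥ a) - a ⬝ᵥ H *ᵥ a) + (E * (b ⬝ᵥ b) - b ⬝ᵥ H *ᵥ b) := by
    unfold dotProduct
    rw [Finset.mul_sum, Finset.mul_sum, ← Finset.sum_sub_distrib, ← Finset.sum_sub_distrib,
      ← Finset.sum_add_distrib]
    exact Finset.sum_congr rfl fun z _ => by ring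
  rw [h5]
  linarith

theorem res_col {H : Matrix ι ι ℝ} {E δ : ℝ} (hδ : 0 < δ)
    (hq : ∀ u : ι → ℝ, δ * (u ⬝ᵥ u) ≤ E * (u ⬝ᵥ u) - u ⬝ᵥ H *ᵥ u) {w : ℂ} (hw : w.re = E) :
    (w • (1 : Matrix ι ι ℂ) - cx H).det ≠ 0 ∧
      ∀ y, ∑ z, ‖(w • (1 : Matrix ι ι ℂ) - cx H)⁻¹ z y‖ ^ 2 ≤ (1 / δ) ^ 2 := by
  set A := w • (1 : Matrix ι ι ℂ) - cx H with hA
  have hdet : A.det ≠ 0 := by
    intro h0
    obtain ⟨v, hv, hv0⟩ := Matrix.exists_mulVec_eq_zero_iff.2 h0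
    have h1 := coer hq hw v
    rw [← hA, hv0] at h1
    simp only [Pi.zero_apply, mul_zero, Complex.zero_re, Finset.sum_const_zero] at h1
    have h2 : 0 < ∑ z, ‖v z‖ ^ 2 := by
      obtain ⟨x, hx⟩ := Function.ne_iff.1 hv
      refine Finset.sum_pos' (fun y _ => by positivity) ⟨x, Finset.mem_univ x, ?_⟩
      have : 0 < ‖v x‖ := norm_pos_iff.2 hx
      positivity
    have := mul_pos hδ h2
    linarith
  refine ⟨hdet, fun y => ?_⟩
  set u : ι → ℂ := A⁻¹ *ᵥ (Pi.single y 1) with hu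
  have hu' : ∀ z, u z = A⁻¹ z y := by
    intro z
    rw [hu, Matrix.mulVec_single_one]
    rfl
  have h1 := coer hq hw u
  have h2 : A *ᵥ u = Pi.single y 1 := by
    rw [hu, Matrix.mulVec_mulVec, Matrix.mul_nonsing_inv _ (isUnit_iff_ne_zero.2 hdet),
      Matrix.one_mulVec]
  rw [← hA, h2] at h1
  have h3 : ∑ z, (starRingEnd ℂ (u z) * (Pi.single y (1 : ℂ) : ι → ℂ) z).re = (u y).re := by
    rw [Finset.sum_eq_single y]
    · rw [Pi.single_eq_same, mul_one, Complex.conj_re]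
    · intro z _ hz
      rw [Pi.single_eq_of_ne hz, mul_zero, Complex.zero_re]
    · intro h; exact absurd (Finset.mem_univ y) h
  rw [h3] at h1
  simp only [← hu']
  clear_value u
  set S := ∑ z, ‖u z‖ ^ 2 with hS
  have hS0 : 0 ≤ S := Finset.sum_nonneg fun z _ => by positivity
  have h4 : ‖u y‖ ^ 2 ≤ S :=
    Finset.single_le_sum (f := fun z => ‖u z‖ ^ 2) (fun _ _ => by positivity) (Finset.mem_univ y)
  have h5 : (δ * S) ^ 2 ≤ S := by
    have h6 : δ * S ≤ ‖u y‖ := h1.trans (Complex.re_le_norm _)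
    have h7 : (δ * S) ^ 2 ≤ ‖u y‖ ^ 2 := pow_le_pow_left₀ (by positivity) h6 2
    linarith
  rw [div_pow, one_pow, le_div_iff₀ (by positivity)]
  rcases hS0.eq_or_lt with h6 | h6
  · rw [← h6, zero_mul]
    norm_num
  · have h7 : S * (δ ^ 2 * S) ≤ S * 1 := by
      calc S * (δ ^ 2 * S) = (δ * S) ^ 2 := by ring
        _ ≤ S := h5
        _ = S * 1 := (mul_one S).symm
    have h8 := le_of_mul_le_mul_left h7 h6
    linarith

theorem cx_pow (K : Matrix ι ι ℝ) (m : ℕ) (x y : ι) : ((cx K) ^ m) x y = (((K ^ m) x y : ℝ) : ℂ) := by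
  have h1 : cx K = Complex.ofRealHom.mapMatrix K := rfl
  rw [h1, ← map_pow]
  rfl

/-- the Neumann expansion -/
theorem neumann (K : Matrix ι ι ℂ) (A : Matrix ι ι ℂ) (W : ℂ) (hW : W ≠ 0)
    (hA : A = W • 1 - K) (hdet : A.det ≠ 0) (m : ℕ) :
    A⁻¹ = ∑ j ∈ Finset.range m, (1 / W) ^ (j + 1) • K ^ j + (1 / W) ^ m • (K ^ m * A⁻¹) := by
  have h0 : A * A⁻¹ = 1 := Matrix.mul_nonsing_inv _ (isUnit_iff_ne_zero.2 hdet)
  have h1 : W • A⁻¹ - K * A⁻¹ = 1 := by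
    have h2 : (W • (1 : Matrix ι ι ℂ) - K) * A⁻¹ = 1 := by rw [← hA]; exact h0
    rw [Matrix.sub_mul, Matrix.smul_mul, Matrix.one_mul] at h2
    exact h2
  have h2 : A⁻¹ = (1 / W) • (1 + K * A⁻¹) := by
    have h3 : 1 + K * A⁻¹ = W • A⁻¹ := by rw [← h1]; abel
    rw [h3, smul_smul, one_div, inv_mul_cancel₀ hW, one_smul]
  induction m with
  | zero => simp
  | succ m ih =>
    rw [Finset.sum_range_succ]
    have h3 : (1 / W) ^ m • (K ^ m * A⁻¹) = (1 / W) ^ (m + 1) • K ^ m +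
        (1 / W) ^ (m + 1) • (K ^ (m + 1) * A⁻¹) := by
      have h4 : K ^ m * A⁻¹ = (1 / W) • (K ^ m + K ^ (m + 1) * A⁻¹) := by
        conv_lhs => rw [h2]
        rw [Matrix.mul_smul, Matrix.mul_add, Matrix.mul_one, ← Matrix.mul_assoc, ← pow_succ]
      rw [h4, smul_smul, ← pow_succ, smul_add]
    rw [add_assoc, ← h3]
    exact ih

/-- one matrix element, with the remainder -/
theorem entry {H K : Matrix ι ι ℝ} {s E δ lam : ℝ} (hK : K = H + s • 1) (hs : Kᵀ = K) (hδ : 0 < δ)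
    (hlam : 0 < lam) (h0 : ∀ u : ι → ℝ, 0 ≤ u ⬝ᵥ K *ᵥ u)
    (h1 : ∀ u : ι → ℝ, u ⬝ᵥ K *ᵥ u ≤ lam * (u ⬝ᵥ u))
    (hq : ∀ u : ι → ℝ, δ * (u ⬝ᵥ u) ≤ E * (u ⬝ᵥ u) - u ⬝ᵥ H *ᵥ u) (hEs : 0 < E + s)
    {w : ℂ} (hw : w.re = E) (x y : ι) (m : ℕ) :
    ‖(w • (1 : Matrix ι ι ℂ) - cx H)⁻¹ x y -
      ∑ j ∈ Finset.range m, (1 / (w + s)) ^ (j + 1) * (((K ^ j) x y : ℝ) : ℂ)‖ ≤
        (lam / (E + s)) ^ m / δ := by
  obtain ⟨hdet, hcol⟩ := res_col hδ hq hw
  set A := w • (1 : Matrix ι ι ℂ) - cx H with hA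
  have hWre : (w + (s : ℂ)).re = E + s := by
    rw [Complex.add_re, Complex.ofReal_re, hw]
  have hW : w + (s : ℂ) ≠ 0 := by
    intro h
    rw [h, Complex.zero_re] at hWre
    linarith
  have hAK : A = (w + (s : ℂ)) • 1 - cx K := by
    rw [hA]
    ext i j
    simp only [cx, hK, Matrix.sub_apply, Matrix.smul_apply, Matrix.map_apply, Matrix.add_apply,
      smul_eq_mul, Complex.ofReal_add, Complex.ofReal_mul]
    rw [Matrix.one_apply, Matrix.one_apply]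
    split_ifs
    · push_cast
      ring
    · push_cast
      ring
  have h2 := congrFun (congrFun (neumann (cx K) A (w + s) hW hAK hdet m) x) y
  rw [Matrix.add_apply, Matrix.sum_apply, Matrix.smul_apply, smul_eq_mul] at h2
  have h3 : ∑ j ∈ Finset.range m, ((1 / (w + (s : ℂ))) ^ (j + 1) • (cx K) ^ j) x y =
      ∑ j ∈ Finset.range m, (1 / (w + (s : ℂ))) ^ (j + 1) * (((K ^ j) x y : ℝ) : ℂ) := by
    refine Finset.sum_congr rfl fun j _ => ?_
    rw [Matrix.smul_apply, smul_eq_mul, cx_pow]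
  rw [h3] at h2
  rw [h2, add_sub_cancel_left, norm_mul, Matrix.mul_apply]
  have h4 : ‖(1 / (w + (s : ℂ))) ^ m‖ ≤ (1 / (E + s)) ^ m := by
    rw [norm_pow]
    apply pow_le_pow_left₀ (norm_nonneg _)
    rw [norm_div, norm_one]
    apply one_div_le_one_div_of_le hEs
    rw [← hWre]
    exact Complex.re_le_norm _
  have h5 : ‖∑ z, (cx K ^ m) x z * A⁻¹ z y‖ ≤ lam ^ m * (1 / δ) := by
    have h6 : ‖∑ z, (cx K ^ m) x z * A⁻¹ z y‖ ≤ ∑ z, |(K ^ m) x z| * ‖A⁻¹ z y‖ := by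
      refine (norm_sum_le _ _).trans (le_of_eq ?_)
      refine Finset.sum_congr rfl fun z _ => ?_
      rw [norm_mul, cx_pow, Complex.norm_real, Real.norm_eq_abs]
    refine h6.trans ?_
    have h7 : (∑ z, |(K ^ m) x z| * ‖A⁻¹ z y‖) ^ 2 ≤ (lam ^ m * (1 / δ)) ^ 2 := by
      refine (Finset.sum_mul_sq_le_sq_mul_sq _ _ _).trans ?_
      rw [mul_pow]
      apply mul_le_mul _ (hcol y) (Finset.sum_nonneg fun z _ => by positivity) (by positivity)
      simp only [sq_abs]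
      exact row_le hs hlam h0 h1 x m
    exact (pow_le_pow_iff_left₀ (Finset.sum_nonneg fun z _ => by positivity) (by positivity)
      (by norm_num)).1 h7
  calc ‖(1 / (w + (s : ℂ))) ^ m‖ * ‖∑ z, (cx K ^ m) x z * A⁻¹ z y‖
      ≤ (1 / (E + s)) ^ m * (lam ^ m * (1 / δ)) :=
        mul_le_mul h4 h5 (norm_nonneg _) (by positivity)
    _ = _ := by
        rw [div_pow, div_pow, one_pow]
        ring

/-- powers of nearby numbers -/
theorem pow_close {p : ℂ} {r ε : ℝ} (hr : 0 ≤ r) (hp : ‖p‖ ≤ r) (hε : ‖p - r‖ ≤ ε * r)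
    (n : ℕ) : ‖p ^ n - (r : ℂ) ^ n‖ ≤ n * ε * r ^ n := by
  induction n with
  | zero => simp
  | succ n ih =>
    have h1 : p ^ (n + 1) - (r : ℂ) ^ (n + 1) = p * (p ^ n - (r : ℂ) ^ n) + (p - r) * (r : ℂ) ^ n := by
      ring
    rw [h1]
    refine (norm_add_le _ _).trans ?_
    rw [norm_mul, norm_mul, norm_pow, Complex.norm_real, Real.norm_of_nonneg hr]
    have h2 : ‖p‖ * ‖p ^ n - (r : ℂ) ^ n‖ ≤ r * (n * ε * r ^ n) :=
      mul_le_mul hp ih (norm_nonneg _) hr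
    have h3 : ‖p - (r : ℂ)‖ * r ^ n ≤ ε * r * r ^ n :=
      mul_le_mul_of_nonneg_right hε (by positivity)
    calc ‖p‖ * ‖p ^ n - (r : ℂ) ^ n‖ + ‖p - (r : ℂ)‖ * r ^ n
        ≤ r * (n * ε * r ^ n) + ε * r * r ^ n := add_le_add h2 h3
      _ = _ := by push_cast; ring

/-- the generic form of the statement -/
theorem main {H K : Matrix ι ι ℝ} {s E δ lam η : ℝ} (hK : K = H + s • 1) (hs : Kᵀ = K)
    (hδ : 0 < δ) (hη : 0 < η) (hlam : 0 < lam) (hlamE : lam = E + s - δ)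
    (hnn : ∀ x y, 0 ≤ K x y) (h0 : ∀ u : ι → ℝ, 0 ≤ u ⬝ᵥ K *ᵥ u)
    (h1 : ∀ u : ι → ℝ, u ⬝ᵥ K *ᵥ u ≤ lam * (u ⬝ᵥ u))
    (hq : ∀ u : ι → ℝ, δ * (u ⬝ᵥ u) ≤ E * (u ⬝ᵥ u) - u ⬝ᵥ H *ᵥ u) (x y : ι) (g : ℝ) (G : ℂ)
    (hg : (g : ℂ) = ((E : ℂ) • (1 : Matrix ι ι ℂ) - cx H)⁻¹ x y)
    (hG : G = (((E : ℂ) + η * Complex.I) • (1 : Matrix ι ι ℂ) - cx H)⁻¹ x y) :
    ‖G‖ ≤ g ∧ ∀ m : ℕ, m * η ≤ E + s →
      (1 - m * η / (E + s)) * g - 2 / δ * Real.exp (-(m * δ / (E + s))) ≤ ‖G‖ := by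
  have hEs : 0 < E + s := by linarith
  set r : ℝ := 1 / (E + s) with hr
  have hr0 : 0 < r := by positivity
  set p : ℂ := 1 / ((E : ℂ) + η * Complex.I + s) with hp
  have hpow : ∀ m j : ℕ, 0 ≤ (K ^ j) x y := by
    intro m j
    have : ∀ a b, 0 ≤ (K ^ j) a b := by
      induction j with
      | zero =>
        intro a b
        rw [pow_zero, Matrix.one_apply]
        split_ifs <;> norm_num
      | succ j ih =>
        intro a b
        rw [pow_succ, Matrix.mul_apply]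
        exact Finset.sum_nonneg fun z _ => mul_nonneg (ih a z) (hnn z b)
    exact this x y
  have hre : ((E : ℂ) + η * Complex.I).re = E := by simp
  have hreW : ((E : ℂ) + η * Complex.I + s).re = E + s := by simp
  have hWne : (E : ℂ) + η * Complex.I + s ≠ 0 := by
    intro h
    rw [h, Complex.zero_re] at hreW
    linarith
  have hWnorm : E + s ≤ ‖(E : ℂ) + η * Complex.I + s‖ := by
    rw [← hreW]
    exact Complex.re_le_norm _
  have hpr : ‖p‖ ≤ r := by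
    rw [hp, norm_div, norm_one, hr]
    exact one_div_le_one_div_of_le hEs hWnorm
  have hpc : ‖p - r‖ ≤ (η / (E + s)) * r := by
    have hEsC : ((E : ℂ) + s) ≠ 0 := by
      have : ((E + s : ℝ) : ℂ) ≠ 0 := by exact_mod_cast hEs.ne'
      push_cast at this
      exact this
    have e : p - (r : ℂ) = -(η * Complex.I) * p * (1 / ((E : ℂ) + s)) := by
      rw [hp, hr]
      push_cast
      field_simp
      ring
    have e2 : ‖(1 : ℂ) / ((E : ℂ) + s)‖ = r := by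
      have : (1 : ℂ) / ((E : ℂ) + s) = ((r : ℝ) : ℂ) := by
        rw [hr]
        push_cast
        rfl
      rw [this, Complex.norm_real, Real.norm_of_nonneg hr0.le]
    rw [e, norm_mul, norm_mul, norm_neg, norm_mul, Complex.norm_I, mul_one, Complex.norm_real,
      Real.norm_of_nonneg hη.le, e2]
    calc η * ‖p‖ * r ≤ η * r * r := by
          apply mul_le_mul_of_nonneg_right _ hr0.le
          exact mul_le_mul_of_nonneg_left hpr hη.le
      _ = _ := by rw [hr]; ring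
  have hent := fun m => entry (w := (E : ℂ) + η * Complex.I) hK hs hδ hlam h0 h1 hq hEs hre x y m
  have hent0 := fun m => entry (w := (E : ℂ)) hK hs hδ hlam h0 h1 hq hEs (Complex.ofReal_re E) x y m
  rw [← hG] at hent
  rw [← hg] at hent0
  -- the real sums
  set S : ℕ → ℝ := fun m => ∑ j ∈ Finset.range m, r ^ (j + 1) * (K ^ j) x y with hS
  have hSnn : ∀ m, 0 ≤ S m := fun m =>
    Finset.sum_nonneg fun j _ => mul_nonneg (by positivity) (hpow m j)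
  have hre0 : ∀ m, ∑ j ∈ Finset.range m, (1 / ((E : ℂ) + s)) ^ (j + 1) * (((K ^ j) x y : ℝ) : ℂ) =
      ((S m : ℝ) : ℂ) := by
    intro m
    rw [hS]
    simp only [hr]
    push_cast
    rfl
  set ρ : ℕ → ℝ := fun m => (lam / (E + s)) ^ m / δ with hρ
  have hA : ∀ m, |g - S m| ≤ ρ m := by
    intro m
    have h2 := hent0 m
    rw [hre0, ← Complex.ofReal_sub, Complex.norm_real, Real.norm_eq_abs] at h2
    exact h2
  have hB : ∀ m, ‖∑ j ∈ Finset.range m, p ^ (j + 1) * (((K ^ j) x y : ℝ) : ℂ)‖ ≤ S m := by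
    intro m
    refine (norm_sum_le _ _).trans (Finset.sum_le_sum fun j _ => ?_)
    rw [norm_mul, norm_pow, Complex.norm_real, Real.norm_of_nonneg (hpow m j)]
    exact mul_le_mul_of_nonneg_right (pow_le_pow_left₀ (norm_nonneg _) hpr _) (hpow m j)
  have hC : ∀ m, ‖∑ j ∈ Finset.range m, p ^ (j + 1) * (((K ^ j) x y : ℝ) : ℂ) - ((S m : ℝ) : ℂ)‖ ≤
      m * (η / (E + s)) * S m := by
    intro m
    have e : ((S m : ℝ) : ℂ) =
        ∑ j ∈ Finset.range m, (r : ℂ) ^ (j + 1) * (((K ^ j) x y : ℝ) : ℂ) := by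
      rw [hS]
      push_cast
      rfl
    rw [e, ← Finset.sum_sub_distrib, hS]
    simp only
    rw [Finset.mul_sum]
    refine (norm_sum_le _ _).trans (Finset.sum_le_sum fun j hj => ?_)
    rw [← sub_mul, norm_mul, Complex.norm_real, Real.norm_of_nonneg (hpow m j)]
    have h2 := pow_close hr0.le hpr hpc (j + 1)
    have h3 : ((j + 1 : ℕ) : ℝ) ≤ m := by
      exact_mod_cast (Finset.mem_range.1 hj)
    have h4 : ((j + 1 : ℕ) : ℝ) * (η / (E + s)) * r ^ (j + 1) ≤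
        m * (η / (E + s)) * r ^ (j + 1) := by
      apply mul_le_mul_of_nonneg_right _ (by positivity)
      exact mul_le_mul_of_nonneg_right h3 (by positivity)
    calc ‖p ^ (j + 1) - (r : ℂ) ^ (j + 1)‖ * (K ^ j) x y
        ≤ (m * (η / (E + s)) * r ^ (j + 1)) * (K ^ j) x y :=
          mul_le_mul_of_nonneg_right (h2.trans h4) (hpow m j)
      _ = _ := by ring
  have hG1 : ∀ m, ‖G - ∑ j ∈ Finset.range m, p ^ (j + 1) * (((K ^ j) x y : ℝ) : ℂ)‖ ≤ ρ m := hent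
  constructor
  · have h2 : ∀ m, ‖G‖ ≤ g + 2 * ρ m := by
      intro m
      have h3 := hG1 m
      have h4 := hB m
      have h5 := (abs_le.1 (hA m)).1
      have h6 : ‖G‖ ≤ ‖G - ∑ j ∈ Finset.range m, p ^ (j + 1) * (((K ^ j) x y : ℝ) : ℂ)‖ +
          ‖∑ j ∈ Finset.range m, p ^ (j + 1) * (((K ^ j) x y : ℝ) : ℂ)‖ := by
        have := norm_add_le (G - ∑ j ∈ Finset.range m, p ^ (j + 1) * (((K ^ j) x y : ℝ) : ℂ))
          (∑ j ∈ Finset.range m, p ^ (j + 1) * (((K ^ j) x y : ℝ) : ℂ))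
        rw [sub_add_cancel] at this
        exact this
      linarith
    have h3 : Tendsto (fun m => g + 2 * ρ m) atTop (𝓝 (g + 2 * (0 / δ))) := by
      apply tendsto_const_nhds.add
      apply tendsto_const_nhds.mul
      apply Tendsto.div_const
      apply tendsto_pow_atTop_nhds_zero_of_lt_one (by positivity)
      rw [div_lt_one hEs]
      linarith
    rw [zero_div, mul_zero, add_zero] at h3
    exact ge_of_tendsto' h3 h2
  · intro m hm
    have hmη : m * η / (E + s) ≤ 1 := by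
      rw [div_le_one hEs]
      exact hm
    have hmη0 : 0 ≤ m * η / (E + s) := by positivity
    have h2 := hG1 m
    have h3 := hC m
    have h4 := (abs_le.1 (hA m)).2
    have h5 : S m ≤ ‖G‖ + ρ m + m * (η / (E + s)) * S m := by
      have e : ((S m : ℝ) : ℂ) = G -
          (G - ∑ j ∈ Finset.range m, p ^ (j + 1) * (((K ^ j) x y : ℝ) : ℂ)) -
          (∑ j ∈ Finset.range m, p ^ (j + 1) * (((K ^ j) x y : ℝ) : ℂ) - ((S m : ℝ) : ℂ)) := by
        ring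
      have h6 : ‖((S m : ℝ) : ℂ)‖ = S m := by
        rw [Complex.norm_real, Real.norm_of_nonneg (hSnn m)]
      rw [← h6]
      conv_lhs => rw [e]
      refine (norm_sub_le _ _).trans ?_
      refine add_le_add ((norm_sub_le _ _).trans ?_) ?_
      · linarith
      · rw [h6]
        exact h3
    have hρe : ρ m ≤ 1 / δ * Real.exp (-(m * δ / (E + s))) := by
      rw [hρ]
      simp only
      have h7 : lam / (E + s) ≤ Real.exp (-(δ / (E + s))) := by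
        have h8 := Real.add_one_le_exp (-(δ / (E + s)))
        have h9 : lam / (E + s) = -(δ / (E + s)) + 1 := by
          rw [hlamE]
          field_simp
          ring
        rw [h9]
        exact h8
      have h8 : (lam / (E + s)) ^ m ≤ Real.exp (-(δ / (E + s))) ^ m :=
        pow_le_pow_left₀ (by positivity) h7 m
      have h9 : Real.exp (-(δ / (E + s))) ^ m = Real.exp (-(m * δ / (E + s))) := by
        rw [← Real.exp_nat_mul]
        congr 1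
        ring
      rw [h9] at h8
      calc (lam / (E + s)) ^ m / δ ≤ Real.exp (-(m * δ / (E + s))) / δ :=
            div_le_div_of_nonneg_right h8 hδ.le
        _ = _ := by ring
    have hρ0 : 0 ≤ ρ m := by
      rw [hρ]
      positivity
    -- g ≤ S m + ρ m
    have h6 : (1 - m * η / (E + s)) * g ≤ (1 - m * η / (E + s)) * (S m + ρ m) :=
      mul_le_mul_of_nonneg_left (by linarith) (by linarith)
    have h7 : (1 - m * η / (E + s)) * ρ m ≤ ρ m := by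
      have : 0 ≤ m * η / (E + s) * ρ m := mul_nonneg hmη0 hρ0
      linarith
    have h8 : (1 - m * η / (E + s)) * S m ≤ ‖G‖ + ρ m := by
      have e : m * (η / (E + s)) * S m = m * η / (E + s) * S m := by ring
      rw [e] at h5
      linarith
    have h9 : 2 / δ * Real.exp (-(m * δ / (E + s))) = 2 * (1 / δ * Real.exp (-(m * δ / (E + s)))) := by
      ring
    rw [h9]
    have h10 : (1 - m * η / (E + s)) * (S m + ρ m) =
        (1 - m * η / (E + s)) * S m + (1 - m * η / (E + s)) * ρ m := by ring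
    rw [h10] at h6
    linarith

end generic

variable {d : ℕ}

theorem psz : PszStmt := by
  intro d V B E δ η x y hd hδ hη hE hV hform
  by_cases hxy : x ∈ B ∧ y ∈ B
  swap
  · have h1 : gz V B (zc E η) x y = 0 := by
      unfold gz
      rw [dif_neg hxy]
    have h2 : gr V B E x y = 0 := by
      unfold gr
      rw [dif_neg hxy]
    rw [h1, h2, norm_zero]
    refine ⟨le_refl _, fun m _ => ?_⟩
    have : 0 < 2 / δ * Real.exp (-(m * δ / (E + 2 * d + 2))) := by positivity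
    linarith
  obtain ⟨hx, hy⟩ := hxy
  classical
  set s : ℝ := 2 * d + 2 with hs
  set H : Matrix B B ℝ := HM V B with hH
  set K : Matrix B B ℝ := H + s • 1 with hK
  have hd0 : (1 : ℝ) ≤ d := by exact_mod_cast hd
  have hext : ∀ u : B → ℝ, ∃ U : Site d → ℝ, (fun z : B => U z) = u := by
    intro u
    refine ⟨fun z => if hz : z ∈ B then u ⟨z, hz⟩ else 0, ?_⟩
    funext z
    simp
  have hsq : ∀ U : Site d → ℝ, (fun z : B => U z) ⬝ᵥ (fun z : B => U z) = ∑ v ∈ B, U v ^ 2 := by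
    intro U
    unfold dotProduct
    rw [← Finset.sum_coe_sort B]
    exact Finset.sum_congr rfl fun z _ => by ring
  have hRM : ∀ u : B → ℝ, u ⬝ᵥ (RM V B E) *ᵥ u = E * (u ⬝ᵥ u) - u ⬝ᵥ H *ᵥ u := by
    intro u
    unfold RM
    rw [Matrix.sub_mulVec, Matrix.smul_mulVec, Matrix.one_mulVec, dotProduct_sub, dotProduct_smul,
      smul_eq_mul]
  have hq : ∀ u : B → ℝ, δ * (u ⬝ᵥ u) ≤ E * (u ⬝ᵥ u) - u ⬝ᵥ H *ᵥ u := by
    intro u
    obtain ⟨U, hU⟩ := hext u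
    have h1 := hform U
    rw [qform_eq_dot, ← hsq, hU, hRM] at h1
    exact h1
  have hlow : ∀ u : B → ℝ, (u ⬝ᵥ u) ≤ u ⬝ᵥ K *ᵥ u := by
    intro u
    obtain ⟨U, hU⟩ := hext u
    have h1 := qform_eq V B E U
    rw [qform_eq_dot, hU, hRM, ← hsq, hU] at h1
    have h2 := (abs_le.1 (abs_hf_le B U)).1
    have h3 : -(u ⬝ᵥ u) ≤ ∑ y ∈ B, V y * U y ^ 2 := by
      rw [← hU, hsq, ← Finset.sum_neg_distrib]
      refine Finset.sum_le_sum fun v hv => ?_
      have := hV v hv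
      nlinarith [sq_nonneg (U v)]
    have h4 : u ⬝ᵥ K *ᵥ u = u ⬝ᵥ H *ᵥ u + s * (u ⬝ᵥ u) := by
      rw [hK, Matrix.add_mulVec, Matrix.smul_mulVec, Matrix.one_mulVec, dotProduct_add,
        dotProduct_smul, smul_eq_mul]
    rw [← hsq, hU] at h2
    rw [h4, hs]
    linarith
  have hup : ∀ u : B → ℝ, u ⬝ᵥ K *ᵥ u ≤ (E + s - δ) * (u ⬝ᵥ u) := by
    intro u
    have h1 := hq u
    have h4 : u ⬝ᵥ K *ᵥ u = u ⬝ᵥ H *ᵥ u + s * (u ⬝ᵥ u) := by
      rw [hK, Matrix.add_mulVec, Matrix.smul_mulVec, Matrix.one_mulVec, dotProduct_add,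
        dotProduct_smul, smul_eq_mul]
    rw [h4]
    linarith
  have hlam : 0 < E + s - δ := by
    have h1 := (hlow (Pi.single ⟨x, hx⟩ 1)).trans (hup (Pi.single ⟨x, hx⟩ 1))
    have h2 : (Pi.single (⟨x, hx⟩ : B) (1 : ℝ) : B → ℝ) ⬝ᵥ Pi.single ⟨x, hx⟩ 1 = 1 := by
      rw [single_one_dotProduct, Pi.single_eq_same]
    rw [h2] at h1
    linarith
  have hsymm : Kᵀ = K := by
    rw [hK, Matrix.transpose_add, Matrix.transpose_smul, Matrix.transpose_one, hH, HM_symm]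
  have hnn : ∀ a b, 0 ≤ K a b := by
    intro a b
    rw [hK, hH, Matrix.add_apply, Matrix.smul_apply, Matrix.one_apply, HM, Matrix.of_apply,
      smul_eq_mul]
    have h1 := hop_nonneg (a : Site d) (b : Site d)
    split_ifs with h
    · have := hV a a.2
      rw [hs]
      linarith
    · linarith
  have h1 := main (η := η) hK hsymm hδ hη hlam rfl hnn
    (fun u => (dot_nonneg u).trans (hlow u)) hup hq ⟨x, hx⟩ ⟨y, hy⟩ (gr V B E x y)
    (gz V B (zc E η) x y) ?_ ?_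
  · have e : E + 2 * d + 2 = E + s := by rw [hs]; ring
    rw [e]
    exact h1
  · rw [← H11.gz_real, H31.gz_eq hx hy]
    rfl
  · rw [H31.gz_eq hx hy]
    rfl

end Pool.Agent.LE.MN.H60
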